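import Pool.Agent.V1282.PL.Sing

set_option autoImplicit false
set_option maxHeartbeats 1000000

/-!
The Hardy-Littlewood-Sobolev inequality on the line, on the diagonal.
-/

open MeasureTheory Set ENNReal NNReal Metric

namespace Pool.Agent.V1282.PL

/-- The conjugate exponent. -/
theorem conj {q : ℝ} (hq : 1 < q) : (q / (q - 1)).HolderConjugate q := by
  rw [Real.holderConjugate_iff]
  constructor
  · rw [lt_div_iff₀ (by linarith)]
    linarith
  · have : q - 1 ≠ 0 := by linarith
    have : q ≠ 0 := by linarith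
    field_simp
    ring

theorem holder {q : ℝ} (hq : 1 < q) (S : Set V) {f g : V → ℝ≥0∞} (hf : Measurable f)
    (hg : Measurable g) :
    ∫⁻ u in S, f u * g u ≤
      (∫⁻ u in S, f u ^ (q / (q - 1))) ^ ((q - 1) / q) * (∫⁻ u in S, g u ^ q) ^ (1 / q) := by
  have h := ENNReal.lintegral_mul_le_Lp_mul_Lq (volume.restrict S) (conj hq) hf.aemeasurable
    hg.aemeasurable
  have e : 1 / (q / (q - 1)) = (q - 1) / q := by
    rw [one_div_div]
  rw [e] at h
  exact h

theorem holder_ball {q : ℝ} (hq : 1 < q) (B : Set V) {f : V → ℝ≥0∞} (hf : Measurable f) (v : V)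
    {r : ℝ} (hr : 0 ≤ r) :
    ∫⁻ u in B ∩ closedBall v r, f u ≤
      (∫⁻ u in B, f u ^ (q / (q - 1))) ^ ((q - 1) / q) * ENNReal.ofReal (om1 * r) ^ (1 / q) := by
  have h := holder hq (B ∩ closedBall v r) hf (measurable_const (a := (1 : ℝ≥0∞)))
  simp only [mul_one, ENNReal.one_rpow, lintegral_const, Measure.restrict_apply MeasurableSet.univ,
    univ_inter, one_mul] at h
  refine h.trans ?_
  have hq1 : 0 ≤ (q - 1) / q := div_nonneg (by linarith) (by linarith)
  have hq2 : 0 ≤ 1 / q := by positivity
  gcongr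
  · exact inter_subset_left
  · rw [← vol_cb v hr]
    exact measure_mono inter_subset_right

/-- The kernel. -/
noncomputable def K (a : ℝ) (v w : V) : ℝ≥0∞ := ENNReal.ofReal (‖w - v‖ ^ (-a))

theorem K_symm (a : ℝ) (v w : V) : K a v w = K a w v := by
  unfold K
  rw [norm_sub_rev]

theorem K_meas (a : ℝ) : Measurable (Function.uncurry (K a)) := by
  unfold K Function.uncurry
  fun_prop

/-- The inner integral. -/
theorem inner_le {q : ℝ} (hq : 2 < q) {B : Set V} {f : V → ℝ≥0∞}
    (hf : Measurable f) (v : V) {x y : ℝ} (hx : 0 < x) (hy : 0 < y)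
    (hX : ∫⁻ u in B, f u ^ (q / (q - 1)) = ENNReal.ofReal x) :
    ∫⁻ w in B ∩ {w | f w ≤ ENNReal.ofReal y}, f w * K (2 / q) v w ≤
      ENNReal.ofReal ((om1 / (1 - 2 / q) + om1 ^ (1 / q)) * (x ^ ((q - 2) / q) *
        y ^ (1 / (q - 1)))) := by
  have hom := om1_pos
  have hq0 : 0 < q := by linarith
  have ha0 : 0 < 2 / q := by positivity
  have ha1 : 2 / q < 1 := by rw [div_lt_one hq0]; exact hq
  set ρ : ℝ := x * y ^ (-(q / (q - 1))) with hρ
  have hρ0 : 0 < ρ := by positivity
  have hKm : ∀ a, Measurable (K a v) := fun a => (K_meas a).of_uncurry_left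
  have hfar : MeasurableSet {w : V | ρ < ‖w - v‖} := measurableSet_lt measurable_const (by fun_prop)
  set S : Set V := B ∩ {w | f w ≤ ENNReal.ofReal y} with hS
  have hsplit : ∫⁻ w in S, f w * K (2 / q) v w ≤
      (∫⁻ w in S ∩ closedBall v ρ, f w * K (2 / q) v w) +
        ∫⁻ w in B ∩ {w : V | ρ < ‖w - v‖}, f w * K (2 / q) v w := by
    calc ∫⁻ w in S, f w * K (2 / q) v w
        ≤ ∫⁻ w in (S ∩ closedBall v ρ) ∪ (B ∩ {w : V | ρ < ‖w - v‖}), f w * K (2 / q) v w := by
          apply lintegral_mono_set
          intro w hw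
          rcases le_or_gt (‖w - v‖) ρ with h | h
          · left
            exact ⟨hw, by rwa [mem_closedBall, dist_eq_norm]⟩
          · right
            exact ⟨hw.1, h⟩
      _ ≤ _ := lintegral_union_le _ _ _
  have h1 : ∫⁻ w in S ∩ closedBall v ρ, f w * K (2 / q) v w ≤
      ENNReal.ofReal (om1 / (1 - 2 / q) * (x ^ ((q - 2) / q) * y ^ (1 / (q - 1)))) := by
    calc ∫⁻ w in S ∩ closedBall v ρ, f w * K (2 / q) v w
        ≤ ∫⁻ w in S ∩ closedBall v ρ, ENNReal.ofReal y * K (2 / q) v w := by
          have hSm : MeasurableSet {w | f w ≤ ENNReal.ofReal y} := measurableSet_le hf measurable_const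
          have e : S ∩ closedBall v ρ = (B ∩ closedBall v ρ) ∩ {w | f w ≤ ENNReal.ofReal y} := by
            rw [hS]
            ext w
            simp only [mem_inter_iff, Set.mem_ofPred_eq]
            tauto
          rw [e, inter_comm, ← Measure.restrict_restrict hSm]
          refine setLIntegral_mono' hSm fun w hw => ?_
          exact mul_le_mul_left hw _
      _ ≤ ∫⁻ w in closedBall v ρ, ENNReal.ofReal y * K (2 / q) v w :=
          lintegral_mono_set inter_subset_right
      _ = ENNReal.ofReal y * ∫⁻ w in closedBall v ρ, K (2 / q) v w :=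
          lintegral_const_mul _ (hKm _)
      _ = ENNReal.ofReal y * ENNReal.ofReal (om1 / (1 - 2 / q) * ρ ^ (1 - 2 / q)) := by
          rw [← sing1 ha0 ha1 hρ0 v]
          rfl
      _ = _ := by
          rw [← ENNReal.ofReal_mul hy.le]
          congr 1
          have e1 : ρ ^ (1 - 2 / q) = x ^ ((q - 2) / q) * y ^ (1 / (q - 1)) * y⁻¹ := by
            rw [hρ, Real.mul_rpow hx.le (by positivity), ← Real.rpow_mul hy.le]
            have e2 : 1 - 2 / q = (q - 2) / q := by field_simp
            have e3 : -(q / (q - 1)) * (1 - 2 / q) = 1 / (q - 1) + (-1) := by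
              have : q - 1 ≠ 0 := by linarith
              field_simp
              ring
            rw [e3, e2, Real.rpow_add hy, Real.rpow_neg_one]
            ring
          rw [e1]
          field_simp
  have h2 : ∫⁻ w in B ∩ {w : V | ρ < ‖w - v‖}, f w * K (2 / q) v w ≤
      ENNReal.ofReal (om1 ^ (1 / q) * (x ^ ((q - 2) / q) * y ^ (1 / (q - 1)))) := by
    have hq1 : 0 ≤ (q - 1) / q := div_nonneg (by linarith) (by linarith)
    have hq2 : 0 ≤ 1 / q := by positivity
    calc ∫⁻ w in B ∩ {w : V | ρ < ‖w - v‖}, f w * K (2 / q) v w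
        ≤ (∫⁻ u in B ∩ {w : V | ρ < ‖w - v‖}, f u ^ (q / (q - 1))) ^ ((q - 1) / q) *
          (∫⁻ u in B ∩ {w : V | ρ < ‖w - v‖}, K (2 / q) v u ^ q) ^ (1 / q) :=
          holder (by linarith) _ hf (hKm _)
      _ ≤ (∫⁻ u in B, f u ^ (q / (q - 1))) ^ ((q - 1) / q) *
          (∫⁻ u in {w : V | ρ < ‖w - v‖}, K (2 / q) v u ^ q) ^ (1 / q) := by
          gcongr
          · exact inter_subset_left
          · exact inter_subset_right
      _ = ENNReal.ofReal x ^ ((q - 1) / q) * (ENNReal.ofReal (om1 * ρ⁻¹)) ^ (1 / q) := by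
          rw [hX, ← sing2 hρ0 v]
          congr 2
          refine setLIntegral_congr_fun hfar fun w hw => ?_
          have hw0 : 0 < ‖w - v‖ := hρ0.trans hw
          show K (2 / q) v w ^ q = _
          unfold K
          rw [ENNReal.ofReal_rpow_of_nonneg (by positivity) hq0.le, ← Real.rpow_mul hw0.le]
          congr 2
          field_simp
      _ = _ := by
          rw [ENNReal.ofReal_rpow_of_nonneg hx.le hq1,
            ENNReal.ofReal_rpow_of_nonneg (by positivity) hq2, ← ENNReal.ofReal_mul (by positivity)]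
          congr 1
          rw [Real.mul_rpow hom.le (by positivity), Real.inv_rpow hρ0.le, ← Real.rpow_neg hρ0.le, hρ,
            Real.mul_rpow hx.le (by positivity), ← Real.rpow_mul hy.le]
          have e3 : -(q / (q - 1)) * -(1 / q) = 1 / (q - 1) := by
            have : q - 1 ≠ 0 := by linarith
            field_simp
          have e4 : x ^ ((q - 1) / q) * x ^ (-(1 / q)) = x ^ ((q - 2) / q) := by
            rw [← Real.rpow_add hx]
            congr 1
            field_simp
            ring
          rw [e3, ← e4]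
          ring
  calc ∫⁻ w in S, f w * K (2 / q) v w ≤ _ := hsplit
    _ ≤ _ := add_le_add h1 h2
    _ = _ := by
        have h3 : 0 < 1 - 2 / q := by linarith
        rw [← ENNReal.ofReal_add (by positivity) (by positivity)]
        congr 1
        ring

/-- The constant. -/
noncomputable def Ch (q : ℝ) : ℝ := 2 * (om1 / (1 - 2 / q) + om1 ^ (1 / q))

theorem Ch_pos {q : ℝ} (hq : 2 < q) : 0 < Ch q := by
  have hom := om1_pos
  have ha1 : 2 / q < 1 := by rw [div_lt_one (by linarith)]; exact hq
  have h3 : 0 < 1 - 2 / q := by linarith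
  unfold Ch
  positivity

/-- **The Hardy-Littlewood-Sobolev inequality on the diagonal.** -/
theorem hls {q : ℝ} (hq : 2 < q) {B : Set V} {f : V → ℝ≥0∞}
    (hf : Measurable f) :
    ∫⁻ v in B, ∫⁻ w in B, f v * f w * K (2 / q) v w ≤
      ENNReal.ofReal (Ch q) * (∫⁻ u in B, f u ^ (q / (q - 1))) ^ (2 * (q - 1) / q) := by
  have hom := om1_pos
  have hq0 : 0 < q := by linarith
  have hCh := Ch_pos hq
  have he0 : 0 < 2 * (q - 1) / q := div_pos (by linarith) hq0
  have hc0 : 0 < q / (q - 1) := div_pos hq0 (by linarith)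
  set X := ∫⁻ u in B, f u ^ (q / (q - 1)) with hX
  rcases eq_or_ne X ∞ with hXt | hXt
  · rw [hXt, ENNReal.top_rpow_of_pos he0, ENNReal.mul_top]
    · exact le_top
    · rw [ne_eq, ENNReal.ofReal_eq_zero, not_le]
      exact hCh
  rcases eq_or_ne X 0 with hX0 | hX0
  · have h1 : ∀ᵐ u ∂(volume.restrict B), f u = 0 := by
      rw [hX, lintegral_eq_zero_iff (hf.pow_const _)] at hX0
      filter_upwards [hX0] with u hu
      have : f u ^ (q / (q - 1)) = 0 := hu
      rw [ENNReal.rpow_eq_zero_iff_of_pos hc0] at this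
      exact this
    have h2 : ∫⁻ v in B, ∫⁻ w in B, f v * f w * K (2 / q) v w = 0 := by
      rw [lintegral_congr_ae (g := fun _ => 0), lintegral_zero]
      filter_upwards [h1] with v hv
      simp [hv]
    rw [h2]
    exact zero_le
  set x : ℝ := X.toReal with hx
  have hx0 : 0 < x := ENNReal.toReal_pos hX0 hXt
  have hXx : X = ENNReal.ofReal x := (ENNReal.ofReal_toReal hXt).symm
  set H : V → V → ℝ≥0∞ := fun v w =>
    {z : V × V | f z.2 ≤ f z.1}.indicator (fun z => f z.1 * f z.2 * K (2 / q) z.1 z.2) (v, w) with hH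
  have hDm : MeasurableSet {z : V × V | f z.2 ≤ f z.1} :=
    measurableSet_le (hf.comp measurable_snd) (hf.comp measurable_fst)
  have hFm : Measurable (fun z : V × V => f z.1 * f z.2 * K (2 / q) z.1 z.2) :=
    ((hf.comp measurable_fst).mul (hf.comp measurable_snd)).mul (K_meas _)
  have hHm : Measurable (Function.uncurry H) := hFm.indicator hDm
  have hle : ∀ v w, f v * f w * K (2 / q) v w ≤ H v w + H w v := by
    intro v w
    rcases le_total (f w) (f v) with h | h
    · have : H v w = f v * f w * K (2 / q) v w := by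
        simp only [hH]
        rw [indicator_of_mem (show (v, w) ∈ {z : V × V | f z.2 ≤ f z.1} from h)]
      rw [this]
      exact le_self_add
    · have : H w v = f v * f w * K (2 / q) v w := by
        simp only [hH]
        rw [indicator_of_mem (show (w, v) ∈ {z : V × V | f z.2 ≤ f z.1} from h), K_symm,
          mul_comm (f w)]
      rw [this]
      exact le_add_self
  have hswap : ∫⁻ v in B, ∫⁻ w in B, H w v = ∫⁻ v in B, ∫⁻ w in B, H v w :=
    lintegral_lintegral_swap (hHm.comp measurable_swap).aemeasurable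
  have hmain : ∫⁻ v in B, ∫⁻ w in B, H v w ≤
      ENNReal.ofReal ((om1 / (1 - 2 / q) + om1 ^ (1 / q)) * x ^ ((q - 2) / q)) * X := by
    have hae : ∀ᵐ v ∂(volume.restrict B), f v < ∞ := by
      have h1 := ae_lt_top (hf.pow_const (q / (q - 1))) hXt
      filter_upwards [h1] with v hv
      exact (ENNReal.rpow_lt_top_iff_of_pos hc0).1 hv
    rw [hX, ← lintegral_const_mul _ (hf.pow_const _)]
    apply lintegral_mono_ae
    filter_upwards [hae] with v hv
    rcases eq_or_ne (f v) 0 with h0 | h0
    · have : ∀ w, H v w = 0 := by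
        intro w
        simp only [hH]
        by_cases hm : (v, w) ∈ {z : V × V | f z.2 ≤ f z.1}
        · rw [indicator_of_mem hm]
          simp only [h0, zero_mul]
        · rw [indicator_of_notMem hm]
      simp only [this, lintegral_zero]
      exact zero_le
    set y : ℝ := (f v).toReal with hy
    have hy0 : 0 < y := ENNReal.toReal_pos h0 hv.ne
    have hfy : f v = ENNReal.ofReal y := (ENNReal.ofReal_toReal hv.ne).symm
    have hvm : MeasurableSet {w | f w ≤ ENNReal.ofReal y} := measurableSet_le hf measurable_const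
    have hKm : Measurable (K (2 / q) v) := (K_meas _).of_uncurry_left
    have e1 : ∫⁻ w in B, H v w = f v * ∫⁻ w in B ∩ {w | f w ≤ ENNReal.ofReal y}, f w * K (2 / q) v w := by
      have hmm : Measurable ({w | f w ≤ ENNReal.ofReal y}.indicator
          (fun w => f w * K (2 / q) v w)) := (hf.mul hKm).indicator hvm
      rw [inter_comm, ← Measure.restrict_restrict hvm, ← lintegral_indicator hvm,
        ← lintegral_const_mul _ hmm]
      refine lintegral_congr fun w => ?_
      simp only [hH]
      by_cases hm : f w ≤ f v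
      · rw [indicator_of_mem (show (v, w) ∈ {z : V × V | f z.2 ≤ f z.1} from hm),
          indicator_of_mem (show w ∈ {w | f w ≤ ENNReal.ofReal y} by rw [Set.mem_ofPred_eq, ← hfy]; exact hm)]
        ring
      · rw [indicator_of_notMem (show (v, w) ∉ {z : V × V | f z.2 ≤ f z.1} from hm),
          indicator_of_notMem (show w ∉ {w | f w ≤ ENNReal.ofReal y} by rw [Set.mem_ofPred_eq, ← hfy]; exact hm),
          mul_zero]
    rw [e1]
    have h3 := inner_le hq hf v hx0 hy0 (B := B) (by rw [← hX, hXx])
    calc f v * ∫⁻ w in B ∩ {w | f w ≤ ENNReal.ofReal y}, f w * K (2 / q) v w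
        ≤ f v * ENNReal.ofReal ((om1 / (1 - 2 / q) + om1 ^ (1 / q)) * (x ^ ((q - 2) / q) *
          y ^ (1 / (q - 1)))) := by gcongr
      _ = _ := by
          have ha1 : 2 / q < 1 := by rw [div_lt_one (by linarith)]; exact hq
          have h4 : 0 < 1 - 2 / q := by linarith
          rw [hfy, ENNReal.ofReal_rpow_of_pos hy0, ← ENNReal.ofReal_mul hy0.le,
            ← ENNReal.ofReal_mul (by positivity)]
          congr 1
          have e5 : y ^ (q / (q - 1)) = y * y ^ (1 / (q - 1)) := by
            have : q / (q - 1) = 1 + 1 / (q - 1) := by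
              have : q - 1 ≠ 0 := by linarith
              field_simp
              ring
            rw [this, Real.rpow_add hy0, Real.rpow_one]
          rw [e5]
          ring
  calc ∫⁻ v in B, ∫⁻ w in B, f v * f w * K (2 / q) v w
      ≤ ∫⁻ v in B, ∫⁻ w in B, (H v w + H w v) :=
        lintegral_mono fun v => lintegral_mono fun w => hle v w
    _ = ∫⁻ v in B, ((∫⁻ w in B, H v w) + ∫⁻ w in B, H w v) := by
        refine lintegral_congr fun v => ?_
        exact lintegral_add_left hHm.of_uncurry_left _
    _ = (∫⁻ v in B, ∫⁻ w in B, H v w) + ∫⁻ v in B, ∫⁻ w in B, H w v :=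
        lintegral_add_left hHm.lintegral_prod_right _
    _ = 2 * ∫⁻ v in B, ∫⁻ w in B, H v w := by rw [hswap, two_mul]
    _ ≤ 2 * (ENNReal.ofReal ((om1 / (1 - 2 / q) + om1 ^ (1 / q)) * x ^ ((q - 2) / q)) * X) := by
        gcongr
    _ = _ := by
        have ha1 : 2 / q < 1 := by rw [div_lt_one (by linarith)]; exact hq
        have h4 : 0 < 1 - 2 / q := by linarith
        have h2 : (2 : ℝ≥0∞) = ENNReal.ofReal 2 := by norm_num
        rw [hXx, ENNReal.ofReal_rpow_of_pos hx0, h2, ← ENNReal.ofReal_mul (by positivity),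
          ← ENNReal.ofReal_mul (by norm_num), ← ENNReal.ofReal_mul hCh.le]
        congr 1
        have e5 : x ^ (2 * (q - 1) / q) = x ^ ((q - 2) / q) * x := by
          rw [← Real.rpow_add_one hx0.ne']
          congr 1
          field_simp
          ring
        rw [e5, Ch]
        ring

end Pool.Agent.V1282.PL
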