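import Pool.Agent.V1282.PL.Hls

set_option autoImplicit false
set_option maxHeartbeats 1000000

/-!
The strong type inequality, without loss, for arbitrary families of lines in the plane.
-/

open MeasureTheory Set ENNReal NNReal Metric

namespace Pool.Agent.V1282.PL

/-- The pointwise bound. -/
theorem ptwise {q : ℝ} (hq : 2 < q) {B S : Set V} (hSB : S ⊆ B)
    {f : V → ℝ≥0∞} (hf : Measurable f) (hfin : ∫⁻ u in B, f u ≠ ∞) :
    (∫⁻ v in S, f v) ^ q ≤ 4 ^ (q - 1) *
      ((∫⁻ u in B, f u ^ (q / (q - 1))) ^ ((q - 1) * (q - 2) / q) *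
        ENNReal.ofReal om1 ^ ((q - 2) / q)) *
        ∫⁻ v in S, ∫⁻ w in S, f v * (f w * ENNReal.ofReal ‖w - v‖ ^ ((q - 2) / q)) := by
  have hq0 : 0 < q := by linarith
  have hom := om1_pos
  set X := ∫⁻ u in B, f u ^ (q / (q - 1)) with hX
  set c : ℝ≥0∞ := X ^ ((q - 1) * (q - 2) / q) * ENNReal.ofReal om1 ^ ((q - 2) / q) with hc
  have hfS : ∫⁻ u in S, f u ≠ ∞ := ne_top_of_le_ne_top hfin (lintegral_mono_set hSB)
  set ν : Measure V := (volume.restrict S).withDensity f with hν
  have hfinν : IsFiniteMeasure ν := isFiniteMeasure_withDensity hfS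
  have huniv : ν univ = ∫⁻ v in S, f v := by
    rw [hν, withDensity_apply _ MeasurableSet.univ, Measure.restrict_univ]
  have hdm : ∀ v, Measurable (fun w : V => ENNReal.ofReal ‖w - v‖ ^ ((q - 2) / q)) := by
    intro v
    fun_prop
  have key : ∀ v, (∫⁻ v in S, f v) ^ (q - 1) ≤ 4 ^ (q - 1) * (c *
      ∫⁻ w in S, f w * ENNReal.ofReal ‖w - v‖ ^ ((q - 2) / q)) := by
    intro v
    have h1 := med_pow ν (ρ := fun u => ‖u - v‖) (by fun_prop) (p := q - 2) (by linarith)
    have e1 : q - 2 + 1 = q - 1 := by ring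
    rw [e1, huniv] at h1
    refine h1.trans ?_
    gcongr
    have h2 : ∀ w, ν {u | ‖u - v‖ ≤ ‖w - v‖} ^ (q - 2) ≤
        c * ENNReal.ofReal ‖w - v‖ ^ ((q - 2) / q) := by
      intro w
      have h3 : ν {u | ‖u - v‖ ≤ ‖w - v‖} ≤
          X ^ ((q - 1) / q) * ENNReal.ofReal (om1 * ‖w - v‖) ^ (1 / q) := by
        have e2 : {u : V | ‖u - v‖ ≤ ‖w - v‖} = closedBall v ‖w - v‖ := by
          ext u
          rw [mem_closedBall, dist_eq_norm]
          rfl
        rw [e2, hν, withDensity_apply _ measurableSet_closedBall,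
          Measure.restrict_restrict measurableSet_closedBall, inter_comm]
        refine le_trans ?_ (holder_ball (by linarith) B hf v (norm_nonneg _))
        exact lintegral_mono_set (inter_subset_inter_left _ hSB)
      calc ν {u | ‖u - v‖ ≤ ‖w - v‖} ^ (q - 2)
          ≤ (X ^ ((q - 1) / q) * ENNReal.ofReal (om1 * ‖w - v‖) ^ (1 / q)) ^ (q - 2) :=
            ENNReal.rpow_le_rpow h3 (by linarith)
        _ = _ := by
            have hq3 : (0 : ℝ) ≤ 1 / q := by positivity
            have hq4 : (0 : ℝ) ≤ q - 2 := by linarith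
            rw [ENNReal.ofReal_mul hom.le, ENNReal.mul_rpow_of_nonneg _ _ hq3,
              ENNReal.mul_rpow_of_nonneg _ _ hq4,
              ENNReal.mul_rpow_of_nonneg _ _ hq4, ← ENNReal.rpow_mul,
              ← ENNReal.rpow_mul, ← ENNReal.rpow_mul, hc]
            have e3 : (q - 1) / q * (q - 2) = (q - 1) * (q - 2) / q := by ring
            have e4 : 1 / q * (q - 2) = (q - 2) / q := by ring
            rw [e3, e4, mul_assoc]
    calc ∫⁻ w, ν {u | ‖u - v‖ ≤ ‖w - v‖} ^ (q - 2) ∂ν
        ≤ ∫⁻ w, c * ENNReal.ofReal ‖w - v‖ ^ ((q - 2) / q) ∂ν := lintegral_mono h2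
      _ = c * ∫⁻ w, ENNReal.ofReal ‖w - v‖ ^ ((q - 2) / q) ∂ν := lintegral_const_mul _ (hdm v)
      _ = c * ∫⁻ w in S, f w * ENNReal.ofReal ‖w - v‖ ^ ((q - 2) / q) := by
          rw [hν, lintegral_withDensity_eq_lintegral_mul _ hf (hdm v)]
          rfl
  have hG : Measurable (fun z : V × V => f z.2 * ENNReal.ofReal ‖z.2 - z.1‖ ^ ((q - 2) / q)) := by
    fun_prop
  have hG2 : Measurable (fun v : V => ∫⁻ w in S, f w * ENNReal.ofReal ‖w - v‖ ^ ((q - 2) / q)) :=
    Measurable.lintegral_prod_right hG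
  have e0 : (∫⁻ v in S, f v) ^ q = ∫⁻ v in S, f v * (∫⁻ v in S, f v) ^ (q - 1) := by
    rw [lintegral_mul_const _ hf]
    have : q = 1 + (q - 1) := by ring
    conv_lhs => rw [this, ENNReal.rpow_add_of_nonneg _ _ zero_le_one (by linarith), ENNReal.rpow_one]
  rw [e0]
  calc ∫⁻ v in S, f v * (∫⁻ v in S, f v) ^ (q - 1)
      ≤ ∫⁻ v in S, f v * (4 ^ (q - 1) * (c *
        ∫⁻ w in S, f w * ENNReal.ofReal ‖w - v‖ ^ ((q - 2) / q))) := by
        gcongr with v
        exact key v
    _ = ∫⁻ v in S, (4 ^ (q - 1) * c) * (f v *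
        ∫⁻ w in S, f w * ENNReal.ofReal ‖w - v‖ ^ ((q - 2) / q)) := by
        refine lintegral_congr fun v => ?_
        ring
    _ = (4 ^ (q - 1) * c) * ∫⁻ v in S, (f v *
        ∫⁻ w in S, f w * ENNReal.ofReal ‖w - v‖ ^ ((q - 2) / q)) :=
        lintegral_const_mul _ (hf.mul hG2)
    _ = _ := by
        congr 1
        refine lintegral_congr fun v => ?_
        have hm2 : Measurable (fun w : V => f w * ENNReal.ofReal ‖w - v‖ ^ ((q - 2) / q)) :=
          hf.mul (hdm v)
        exact (lintegral_const_mul _ hm2).symm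

/-- The indicator of the line number `v` of width `R`. -/
noncomputable def chi (b : V → V) (R : ℝ) (z : ℝ × V) (v : V) : ℝ≥0∞ :=
  {y : V | ‖y‖ ≤ R}.indicator (fun _ => 1) (z.2 - (b v + z.1 • v))

theorem chi_meas {b : V → V} (hb : Measurable b) (R : ℝ) : Measurable (Function.uncurry (chi b R)) := by
  unfold chi Function.uncurry
  have h1 : MeasurableSet {y : V | ‖y‖ ≤ R} := measurableSet_le (by fun_prop) measurable_const
  exact (measurable_const.indicator h1).comp (by fun_prop)

theorem chi_comp {α : Type} [MeasurableSpace α] {b : V → V} (hb : Measurable b) (R : ℝ)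
    {u : α → ℝ × V} {v : α → V} (hu : Measurable u) (hv : Measurable v) :
    Measurable (fun a => chi b R (u a) (v a)) := by
  unfold chi
  have h1 : MeasurableSet {y : V | ‖y‖ ≤ R} := measurableSet_le (by fun_prop) measurable_const
  exact (measurable_const.indicator h1).comp (by fun_prop)

theorem chi_one {b : V → V} {R : ℝ} {z : ℝ × V} {v : V} (h : ‖z.2 - (b v + z.1 • v)‖ ≤ R) :
    chi b R z v = 1 := by
  unfold chi
  rw [indicator_of_mem (show z.2 - (b v + z.1 • v) ∈ {y : V | ‖y‖ ≤ R} from h)]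

theorem chi_zero {b : V → V} {R : ℝ} {z : ℝ × V} {v : V} (h : ¬ ‖z.2 - (b v + z.1 • v)‖ ≤ R) :
    chi b R z v = 0 := by
  unfold chi
  rw [indicator_of_notMem (show z.2 - (b v + z.1 • v) ∉ {y : V | ‖y‖ ≤ R} from h)]

/-- The measure of the intersection of two strips. -/
theorem strips {b : V → V} {R : ℝ} (hR : 0 < R) {v w : V} (hvw : v ≠ w) :
    ∫⁻ t : ℝ, ∫⁻ x : V, chi b R (t, x) v * chi b R (t, x) w ≤
      ENNReal.ofReal (8 * om1 * R ^ 2 * ‖w - v‖⁻¹) := by
  have hom := om1_pos
  have hn : 0 < ‖w - v‖ := norm_pos_iff.2 (sub_ne_zero.2 hvw.symm)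
  set A : Set ℝ := {t | ‖(b v + t • v) - (b w + t • w)‖ ≤ 2 * R} with hA
  have h1 : ∀ t, ∫⁻ x : V, chi b R (t, x) v * chi b R (t, x) w ≤
      A.indicator (fun _ => ENNReal.ofReal (om1 * R)) t := by
    intro t
    by_cases ht : t ∈ A
    · rw [indicator_of_mem ht]
      calc ∫⁻ x : V, chi b R (t, x) v * chi b R (t, x) w
          ≤ ∫⁻ x : V, (closedBall (b v + t • v) R).indicator (fun _ => 1) x := by
            refine lintegral_mono fun x => ?_
            by_cases hx : ‖x - (b v + t • v)‖ ≤ R
            · rw [indicator_of_mem (show x ∈ closedBall (b v + t • v) R by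
                rw [mem_closedBall, dist_eq_norm]; exact hx),
                chi_one (z := (t, x)) hx, one_mul]
              by_cases hx2 : ‖x - (b w + t • w)‖ ≤ R
              · rw [chi_one (z := (t, x)) hx2]
              · rw [chi_zero (z := (t, x)) hx2]
                exact zero_le
            · rw [chi_zero (z := (t, x)) hx, zero_mul]
              exact zero_le
        _ = volume (closedBall (b v + t • v) R) := by
            rw [lintegral_indicator_const measurableSet_closedBall, one_mul]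
        _ = _ := vol_cb _ hR.le
    · rw [indicator_of_notMem ht]
      refine le_of_eq ?_
      rw [lintegral_congr (g := fun _ => 0), lintegral_zero]
      intro x
      by_cases hx : ‖x - (b v + t • v)‖ ≤ R
      · by_cases hx2 : ‖x - (b w + t • w)‖ ≤ R
        · exfalso
          apply ht
          show ‖(b v + t • v) - (b w + t • w)‖ ≤ 2 * R
          have e : (b v + t • v) - (b w + t • w) = (x - (b w + t • w)) - (x - (b v + t • v)) := by abel
          rw [e]
          linarith [norm_sub_le (x - (b w + t • w)) (x - (b v + t • v))]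
        · rw [chi_zero (z := (t, x)) hx2, mul_zero]
      · rw [chi_zero (z := (t, x)) hx, zero_mul]
  have hAm : MeasurableSet A := by
    apply measurableSet_le _ measurable_const
    fun_prop
  have hAv : volume A ≤ ENNReal.ofReal (8 * R * ‖w - v‖⁻¹) := by
    rcases A.eq_empty_or_nonempty with h | ⟨t₀, ht₀⟩
    · rw [h, measure_empty]
      exact zero_le
    · calc volume A ≤ volume (closedBall t₀ (4 * R * ‖w - v‖⁻¹)) := by
            apply measure_mono
            intro t ht
            rw [mem_closedBall, Real.dist_eq]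
            have h2 : ‖(t - t₀) • (v - w)‖ ≤ 4 * R := by
              have e : (t - t₀) • (v - w) = ((b v + t • v) - (b w + t • w)) -
                  ((b v + t₀ • v) - (b w + t₀ • w)) := by
                rw [smul_sub, sub_smul, sub_smul]; abel
              rw [e]
              have h3 : ‖(b v + t • v) - (b w + t • w)‖ ≤ 2 * R := ht
              have h4 : ‖(b v + t₀ • v) - (b w + t₀ • w)‖ ≤ 2 * R := ht₀
              linarith [norm_sub_le ((b v + t • v) - (b w + t • w))
                ((b v + t₀ • v) - (b w + t₀ • w))]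
            rw [norm_smul, Real.norm_eq_abs, norm_sub_rev] at h2
            rw [← div_eq_mul_inv, le_div_iff₀ hn]
            exact h2
        _ = _ := by
            rw [Real.volume_closedBall]
            congr 1
            ring
  calc ∫⁻ t : ℝ, ∫⁻ x : V, chi b R (t, x) v * chi b R (t, x) w
      ≤ ∫⁻ t : ℝ, A.indicator (fun _ => ENNReal.ofReal (om1 * R)) t := lintegral_mono h1
    _ = ENNReal.ofReal (om1 * R) * volume A := lintegral_indicator_const hAm _
    _ ≤ ENNReal.ofReal (om1 * R) * ENNReal.ofReal (8 * R * ‖w - v‖⁻¹) := by gcongr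
    _ = _ := by
        rw [← ENNReal.ofReal_mul (by positivity)]
        congr 1
        ring

/-- The constant. -/
noncomputable def Cp (q : ℝ) : ℝ := 4 ^ (q - 1) * om1 ^ ((q - 2) / q) * (8 * om1) * Ch q

theorem Cp_pos {q : ℝ} (hq : 2 < q) : 0 < Cp q := by
  have hom := om1_pos
  have hCh := Ch_pos hq
  unfold Cp
  positivity

/-- **The strong type inequality for arbitrary families of lines in the plane, `q > 2`.** -/
theorem planar {q : ℝ} (hq : 2 < q) {B : Set V} (hB1 : B ⊆ closedBall 0 1)
    {b : V → V} (hb : Measurable b) {R : ℝ} (hR : 0 < R) {f : V → ℝ≥0∞} (hf : Measurable f) :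
    ∫⁻ t : ℝ, ∫⁻ x : V, (∫⁻ v in {v | v ∈ B ∧ ‖x - (b v + t • v)‖ ≤ R}, f v) ^ q ≤
      ENNReal.ofReal (Cp q * R ^ 2) * (∫⁻ v in B, f v ^ (q / (q - 1))) ^ (q - 1) := by
  have hom := om1_pos
  have hq0 : 0 < q := by linarith
  have hCh := Ch_pos hq
  have hCp := Cp_pos hq
  have hc0 : 0 < q / (q - 1) := div_pos hq0 (by linarith)
  set X := ∫⁻ u in B, f u ^ (q / (q - 1)) with hX
  rcases eq_or_ne X ∞ with hXt | hXt
  · rw [hXt, ENNReal.top_rpow_of_pos (by linarith), ENNReal.mul_top]
    · exact le_top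
    · rw [ne_eq, ENNReal.ofReal_eq_zero, not_le]
      positivity
  have hfin : ∫⁻ u in B, f u ≠ ∞ := by
    have h1 := holder_ball (q := q) (by linarith) B hf (0 : V) zero_le_one
    rw [inter_eq_self_of_subset_left hB1] at h1
    refine ne_top_of_le_ne_top ?_ h1
    apply ENNReal.mul_ne_top
    · exact ENNReal.rpow_ne_top_of_nonneg (div_nonneg (by linarith) hq0.le) hXt
    · exact ENNReal.rpow_ne_top_of_nonneg (by positivity) ENNReal.ofReal_ne_top
  set c : ℝ≥0∞ := 4 ^ (q - 1) *
      (X ^ ((q - 1) * (q - 2) / q) * ENNReal.ofReal om1 ^ ((q - 2) / q)) with hc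
  set F : V × V → ℝ≥0∞ := fun y => f y.1 * (f y.2 * ENNReal.ofReal ‖y.2 - y.1‖ ^ ((q - 2) / q))
    with hF
  have hFm : Measurable F := by
    rw [hF]
    fun_prop
  set μ2 : Measure (V × V) := (volume.restrict B).prod (volume.restrict B) with hμ2
  set G : ℝ × V → V × V → ℝ≥0∞ := fun z y => (chi b R z y.1 * chi b R z y.2) * F y with hG
  have hGm : Measurable (Function.uncurry G) := by
    have h2 : Measurable (fun p : (ℝ × V) × (V × V) => chi b R p.1 p.2.1) :=
      chi_comp hb R measurable_fst (measurable_fst.comp measurable_snd)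
    have h3 : Measurable (fun p : (ℝ × V) × (V × V) => chi b R p.1 p.2.2) :=
      chi_comp hb R measurable_fst (measurable_snd.comp measurable_snd)
    exact (h2.mul h3).mul (hFm.comp measurable_snd)
  -- the pointwise bound
  have hpt : ∀ (t : ℝ) (x : V), (∫⁻ v in {v | v ∈ B ∧ ‖x - (b v + t • v)‖ ≤ R}, f v) ^ q ≤
      c * ∫⁻ y, G (t, x) y ∂μ2 := by
    intro t x
    have hZ : MeasurableSet {v : V | ‖x - (b v + t • v)‖ ≤ R} :=
      measurableSet_le (by fun_prop) measurable_const
    set S : Set V := {v | v ∈ B ∧ ‖x - (b v + t • v)‖ ≤ R} with hS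
    have h1 := ptwise hq (S := S) (fun v hv => hv.1) hf hfin (B := B)
    refine h1.trans (le_of_eq ?_)
    rw [← hX, ← hc]
    congr 1
    have hchi : Measurable (chi b R (t, x)) := chi_comp hb R measurable_const measurable_id
    have hGz : Measurable (G (t, x)) :=
      ((hchi.comp measurable_fst).mul (hchi.comp measurable_snd)).mul hFm
    rw [hμ2, lintegral_prod _ hGz.aemeasurable]
    have hrestr : ∀ g : V → ℝ≥0∞, ∫⁻ v in S, g v = ∫⁻ v in B, chi b R (t, x) v * g v := by
      intro g
      have e1 : S = {v : V | ‖x - (b v + t • v)‖ ≤ R} ∩ B := by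
        rw [hS, inter_comm]
        rfl
      rw [e1, ← Measure.restrict_restrict hZ, ← lintegral_indicator hZ]
      refine lintegral_congr fun v => ?_
      by_cases hv : ‖x - (b v + t • v)‖ ≤ R
      · rw [indicator_of_mem (show v ∈ {v : V | ‖x - (b v + t • v)‖ ≤ R} from hv),
          chi_one (z := (t, x)) hv, one_mul]
      · rw [indicator_of_notMem (show v ∉ {v : V | ‖x - (b v + t • v)‖ ≤ R} from hv),
          chi_zero (z := (t, x)) hv, zero_mul]
    rw [hrestr]
    refine lintegral_congr fun v => ?_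
    have hm3 : Measurable (fun w : V => chi b R (t, x) w *
        (f v * (f w * ENNReal.ofReal ‖w - v‖ ^ ((q - 2) / q)))) := by
      refine hchi.mul (measurable_const.mul (hf.mul ?_))
      fun_prop
    rw [hrestr, ← lintegral_const_mul _ hm3]
    refine lintegral_congr fun w => ?_
    simp only [hG, hF]
    ring
  have hInt : Measurable (fun z => ∫⁻ y, G z y ∂μ2) := hGm.lintegral_prod_right
  have hL : ∀ y : V × V, ∫⁻ z : ℝ × V, G z y ≤
      ENNReal.ofReal (8 * om1 * R ^ 2) * (f y.1 * f y.2 * K (2 / q) y.1 y.2) := by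
    rintro ⟨v, w⟩
    have hcm : Measurable (fun z : ℝ × V => chi b R z v * chi b R z w) :=
      (chi_comp hb R measurable_id measurable_const).mul
        (chi_comp hb R measurable_id measurable_const)
    have e1 : ∫⁻ z : ℝ × V, G z (v, w) = (∫⁻ z : ℝ × V, chi b R z v * chi b R z w) * F (v, w) :=
      lintegral_mul_const _ hcm
    have e2 : ∫⁻ z : ℝ × V, chi b R z v * chi b R z w =
        ∫⁻ t : ℝ, ∫⁻ x : V, chi b R (t, x) v * chi b R (t, x) w := by
      rw [Measure.volume_eq_prod, lintegral_prod _ hcm.aemeasurable]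
    rcases eq_or_ne v w with rfl | hvw
    · have hF0 : F (v, v) = 0 := by
        simp only [hF, sub_self, norm_zero, ENNReal.ofReal_zero]
        rw [ENNReal.zero_rpow_of_pos (div_pos (by linarith) hq0), mul_zero, mul_zero]
      rw [e1, hF0, mul_zero]
      exact zero_le
    · have hn : 0 < ‖w - v‖ := norm_pos_iff.2 (sub_ne_zero.2 hvw.symm)
      rw [e1, e2]
      calc (∫⁻ t : ℝ, ∫⁻ x : V, chi b R (t, x) v * chi b R (t, x) w) * F (v, w)
          ≤ ENNReal.ofReal (8 * om1 * R ^ 2 * ‖w - v‖⁻¹) * F (v, w) := by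
            gcongr
            exact strips hR hvw
        _ = _ := by
            have e3 : ENNReal.ofReal (8 * om1 * R ^ 2 * ‖w - v‖⁻¹) *
                ENNReal.ofReal ‖w - v‖ ^ ((q - 2) / q) =
                ENNReal.ofReal (8 * om1 * R ^ 2) * K (2 / q) v w := by
              unfold K
              rw [ENNReal.ofReal_rpow_of_pos hn, ← ENNReal.ofReal_mul (by positivity),
                ← ENNReal.ofReal_mul (by positivity)]
              congr 1
              have e4 : ‖w - v‖⁻¹ * ‖w - v‖ ^ ((q - 2) / q) = ‖w - v‖ ^ (-(2 / q)) := by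
                rw [← Real.rpow_neg_one, ← Real.rpow_add hn]
                congr 1
                field_simp
                ring
              rw [← e4]
              ring
            simp only [hF]
            calc ENNReal.ofReal (8 * om1 * R ^ 2 * ‖w - v‖⁻¹) *
                  (f v * (f w * ENNReal.ofReal ‖w - v‖ ^ ((q - 2) / q)))
                = f v * f w * (ENNReal.ofReal (8 * om1 * R ^ 2 * ‖w - v‖⁻¹) *
                  ENNReal.ofReal ‖w - v‖ ^ ((q - 2) / q)) := by ring
              _ = _ := by rw [e3]; ring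
  have hKf : Measurable (fun y : V × V => f y.1 * f y.2 * K (2 / q) y.1 y.2) :=
    ((hf.comp measurable_fst).mul (hf.comp measurable_snd)).mul (K_meas _)
  calc ∫⁻ t : ℝ, ∫⁻ x : V, (∫⁻ v in {v | v ∈ B ∧ ‖x - (b v + t • v)‖ ≤ R}, f v) ^ q
      ≤ ∫⁻ t : ℝ, ∫⁻ x : V, c * ∫⁻ y, G (t, x) y ∂μ2 :=
        lintegral_mono fun t => lintegral_mono fun x => hpt t x
    _ = ∫⁻ z : ℝ × V, c * ∫⁻ y, G z y ∂μ2 := by
        rw [Measure.volume_eq_prod, lintegral_prod _ (hInt.const_mul c).aemeasurable]
    _ = c * ∫⁻ z : ℝ × V, ∫⁻ y, G z y ∂μ2 := lintegral_const_mul _ hInt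
    _ = c * ∫⁻ y, ∫⁻ z : ℝ × V, G z y ∂volume ∂μ2 := by
        rw [lintegral_lintegral_swap hGm.aemeasurable]
    _ ≤ c * ∫⁻ y, ENNReal.ofReal (8 * om1 * R ^ 2) * (f y.1 * f y.2 * K (2 / q) y.1 y.2) ∂μ2 := by
        gcongr with y
        exact hL y
    _ = c * (ENNReal.ofReal (8 * om1 * R ^ 2) *
          ∫⁻ v in B, ∫⁻ w in B, f v * f w * K (2 / q) v w) := by
        rw [lintegral_const_mul _ hKf, hμ2, lintegral_prod _ hKf.aemeasurable]
    _ ≤ c * (ENNReal.ofReal (8 * om1 * R ^ 2) *
          (ENNReal.ofReal (Ch q) * X ^ (2 * (q - 1) / q))) := by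
        gcongr
        exact hls hq hf
    _ = _ := by
        have h4 : (4 : ℝ≥0∞) = ENNReal.ofReal 4 := by norm_num
        have hX1 : X ^ ((q - 1) * (q - 2) / q) * X ^ (2 * (q - 1) / q) = X ^ (q - 1) := by
          rw [← ENNReal.rpow_add_of_nonneg]
          · congr 1
            field_simp
            ring
          · exact div_nonneg (mul_nonneg (by linarith) (by linarith)) hq0.le
          · exact div_nonneg (by linarith) hq0.le
        calc c * (ENNReal.ofReal (8 * om1 * R ^ 2) *
              (ENNReal.ofReal (Ch q) * X ^ (2 * (q - 1) / q)))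
            = (4 ^ (q - 1) * ENNReal.ofReal om1 ^ ((q - 2) / q) * ENNReal.ofReal (8 * om1 * R ^ 2) *
              ENNReal.ofReal (Ch q)) * (X ^ ((q - 1) * (q - 2) / q) * X ^ (2 * (q - 1) / q)) := by
              rw [hc]
              ring
          _ = _ := by
              rw [hX1, h4, ENNReal.ofReal_rpow_of_pos (by norm_num), ENNReal.ofReal_rpow_of_pos hom,
                ← ENNReal.ofReal_mul (by positivity), ← ENNReal.ofReal_mul (by positivity),
                ← ENNReal.ofReal_mul (by positivity), Cp]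
              congr 2
              ring

end Pool.Agent.V1282.PL
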