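import Mathlib

set_option autoImplicit false
set_option maxHeartbeats 1000000

/-!
Singular integrals on the line, written as the Euclidean space `EuclideanSpace ℝ (Fin 1)`, and the
median lemma.
-/

open MeasureTheory Set ENNReal NNReal Metric

namespace Pool.Agent.V1282.PL

/-- The line. -/
abbrev V : Type := EuclideanSpace ℝ (Fin 1)

/-- The length of the unit ball. -/
noncomputable def om1 : ℝ := (volume : Measure V).real (ball 0 1)

theorem om1_pos : 0 < om1 := by
  unfold om1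
  rw [measureReal_def]
  exact ENNReal.toReal_pos (measure_ball_pos _ _ one_pos).ne' measure_ball_lt_top.ne

theorem vol_cb (v : V) {r : ℝ} (hr : 0 ≤ r) : volume (closedBall v r) = ENNReal.ofReal (om1 * r) := by
  rw [Measure.addHaar_closedBall _ v hr, finrank_euclideanSpace_fin, pow_one, mul_comm,
    ENNReal.ofReal_mul om1_pos.le, om1, ofReal_measureReal measure_ball_lt_top.ne]

theorem polar {f : ℝ → ℝ} (hf : ∀ x, 0 ≤ f x) (hi : IntegrableOn f (Ioi 0)) :
    ∫⁻ z : V, ENNReal.ofReal (f ‖z‖) = ENNReal.ofReal (om1 * ∫ y in Ioi (0 : ℝ), f y) := by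
  have hi' : Integrable (fun z : V => f ‖z‖) volume := by
    rw [integrable_fun_norm_addHaar]
    simpa [finrank_euclideanSpace_fin] using hi
  rw [← ofReal_integral_eq_lintegral_ofReal hi' (Filter.Eventually.of_forall fun z => hf _),
    integral_fun_norm_addHaar]
  simp [finrank_euclideanSpace_fin, om1]

theorem sing1 {a ρ : ℝ} (ha0 : 0 < a) (ha : a < 1) (hρ : 0 < ρ) (v : V) :
    ∫⁻ w in closedBall v ρ, ENNReal.ofReal (‖w - v‖ ^ (-a)) =
      ENNReal.ofReal (om1 / (1 - a) * ρ ^ (1 - a)) := by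
  have h1 : ∫⁻ w in closedBall v ρ, ENNReal.ofReal (‖w - v‖ ^ (-a)) =
      ∫⁻ z : V, ENNReal.ofReal ((Ioc 0 ρ).indicator (fun y => y ^ (-a)) ‖z‖) := by
    rw [← lintegral_indicator measurableSet_closedBall,
      ← lintegral_sub_right_eq_self (fun z : V =>
        ENNReal.ofReal ((Ioc 0 ρ).indicator (fun y => y ^ (-a)) ‖z‖)) v]
    refine lintegral_congr fun w => ?_
    by_cases hw : w ∈ closedBall v ρ
    · rw [indicator_of_mem hw]
      rw [mem_closedBall, dist_eq_norm] at hw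
      rcases eq_or_lt_of_le (norm_nonneg (w - v)) with h | h
      · rw [← h, indicator_of_notMem (by simp), Real.zero_rpow (by linarith)]
      · rw [indicator_of_mem (show ‖w - v‖ ∈ Ioc 0 ρ from ⟨h, hw⟩)]
    · rw [indicator_of_notMem hw]
      rw [mem_closedBall, dist_eq_norm] at hw
      rw [indicator_of_notMem (fun h : ‖w - v‖ ∈ Ioc 0 ρ => hw h.2), ENNReal.ofReal_zero]
  have hint : IntegrableOn (fun y : ℝ => y ^ (-a)) (Ioc 0 ρ) := by
    rw [← intervalIntegrable_iff_integrableOn_Ioc_of_le hρ.le]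
    exact intervalIntegral.intervalIntegrable_rpow' (by linarith)
  have hind : IntegrableOn ((Ioc 0 ρ).indicator (fun y : ℝ => y ^ (-a))) (Ioi 0) :=
    (hint.integrable_indicator measurableSet_Ioc).integrableOn
  rw [h1, polar _ hind]
  · congr 1
    rw [setIntegral_indicator measurableSet_Ioc, inter_eq_self_of_subset_right Ioc_subset_Ioi_self,
      ← intervalIntegral.integral_of_le hρ.le, integral_rpow (Or.inl (by linarith)),
      Real.zero_rpow (by linarith)]
    have : -a + 1 = 1 - a := by ring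
    rw [this]
    ring
  · intro x
    by_cases hx : x ∈ Ioc 0 ρ
    · rw [indicator_of_mem hx]
      exact Real.rpow_nonneg hx.1.le _
    · rw [indicator_of_notMem hx]

theorem sing2 {ρ : ℝ} (hρ : 0 < ρ) (v : V) :
    ∫⁻ w in {w | ρ < ‖w - v‖}, ENNReal.ofReal (‖w - v‖ ^ (-2 : ℝ)) =
      ENNReal.ofReal (om1 * ρ⁻¹) := by
  have hm : MeasurableSet {w : V | ρ < ‖w - v‖} :=
    measurableSet_lt measurable_const (by fun_prop)
  have h1 : ∫⁻ w in {w | ρ < ‖w - v‖}, ENNReal.ofReal (‖w - v‖ ^ (-2 : ℝ)) =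
      ∫⁻ z : V, ENNReal.ofReal ((Ioi ρ).indicator (fun y => y ^ (-2 : ℝ)) ‖z‖) := by
    rw [← lintegral_indicator hm,
      ← lintegral_sub_right_eq_self (fun z : V =>
        ENNReal.ofReal ((Ioi ρ).indicator (fun y => y ^ (-2 : ℝ)) ‖z‖)) v]
    refine lintegral_congr fun w => ?_
    by_cases hw : ρ < ‖w - v‖
    · rw [indicator_of_mem (show w ∈ {w : V | ρ < ‖w - v‖} from hw),
        indicator_of_mem (show ‖w - v‖ ∈ Ioi ρ from hw)]
    · rw [indicator_of_notMem (show w ∉ {w : V | ρ < ‖w - v‖} from hw),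
        indicator_of_notMem (show ‖w - v‖ ∉ Ioi ρ from hw), ENNReal.ofReal_zero]
  have hint : IntegrableOn (fun y : ℝ => y ^ (-2 : ℝ)) (Ioi ρ) :=
    integrableOn_Ioi_rpow_of_lt (by norm_num) hρ
  have hind : IntegrableOn ((Ioi ρ).indicator (fun y : ℝ => y ^ (-2 : ℝ))) (Ioi 0) :=
    (hint.integrable_indicator measurableSet_Ioi).integrableOn
  rw [h1, polar _ hind]
  · congr 2
    rw [setIntegral_indicator measurableSet_Ioi,
      inter_eq_self_of_subset_right (Ioi_subset_Ioi hρ.le),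
      integral_Ioi_rpow_of_lt (by norm_num) hρ]
    norm_num
    rw [Real.rpow_neg_one]
  · intro x
    by_cases hx : x ∈ Ioi ρ
    · rw [indicator_of_mem hx]
      exact Real.rpow_nonneg (hρ.le.trans (le_of_lt hx)) _
    · rw [indicator_of_notMem hx]

/-- The median lemma. -/
theorem med {α : Type} [MeasurableSpace α] (ν : Measure α) [SFinite ν] {ρ : α → ℝ}
    (hρ : Measurable ρ) :
    ν univ * ν univ ≤ 2 * ∫⁻ w, ν {u | ρ u ≤ ρ w} ∂ν := by
  have hD : MeasurableSet {z : α × α | ρ z.1 ≤ ρ z.2} :=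
    measurableSet_le (hρ.comp measurable_fst) (hρ.comp measurable_snd)
  have hD' : MeasurableSet {z : α × α | ρ z.2 ≤ ρ z.1} :=
    measurableSet_le (hρ.comp measurable_snd) (hρ.comp measurable_fst)
  have h1 : (ν.prod ν) {z : α × α | ρ z.1 ≤ ρ z.2} = ∫⁻ w, ν {u | ρ u ≤ ρ w} ∂ν :=
    Measure.prod_apply_symm hD
  have h2 : (ν.prod ν) {z : α × α | ρ z.2 ≤ ρ z.1} = ∫⁻ w, ν {u | ρ u ≤ ρ w} ∂ν :=
    Measure.prod_apply hD'
  calc ν univ * ν univ = (ν.prod ν) univ := by
        rw [← Measure.prod_prod, univ_prod_univ]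
    _ ≤ (ν.prod ν) ({z : α × α | ρ z.1 ≤ ρ z.2} ∪ {z : α × α | ρ z.2 ≤ ρ z.1}) := by
        apply measure_mono
        intro z _
        exact le_total (ρ z.1) (ρ z.2)
    _ ≤ _ := measure_union_le _ _
    _ = _ := by rw [h1, h2, two_mul]

theorem aux4 {m n : ℝ≥0∞} (hm : m ≠ ∞) (hn : n ≠ ∞) (h1 : m * m ≤ 2 * (m / 4 * m + m * n)) :
    m / 4 ≤ n := by
  lift m to ℝ≥0 using hm
  lift n to ℝ≥0 using hn
  have h2 : (m : ℝ≥0∞) / 4 = ((m / 4 : ℝ≥0) : ℝ≥0∞) := by
    rw [ENNReal.coe_div (by norm_num)]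
    norm_num
  rw [h2] at h1 ⊢
  have h4 : (m : ℝ) * m ≤ 2 * (m / 4 * m + m * n) := by exact_mod_cast h1
  have h5 : (0 : ℝ) ≤ n := n.2
  have h6 : (0 : ℝ) ≤ m := m.2
  norm_cast
  by_contra hcon
  push Not at hcon
  have h3 : (n : ℝ) < m / 4 := by exact_mod_cast hcon
  nlinarith

/-- The power form of the median lemma. -/
theorem med_pow {α : Type} [MeasurableSpace α] (ν : Measure α) [IsFiniteMeasure ν] {ρ : α → ℝ}
    (hρ : Measurable ρ) {p : ℝ} (hp : 0 < p) :
    ν univ ^ (p + 1) ≤ 4 ^ (p + 1) * ∫⁻ w, ν {u | ρ u ≤ ρ w} ^ p ∂ν := by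
  have hD' : MeasurableSet {z : α × α | ρ z.2 ≤ ρ z.1} :=
    measurableSet_le (hρ.comp measurable_snd) (hρ.comp measurable_fst)
  set g : α → ℝ≥0∞ := fun w => ν {u | ρ u ≤ ρ w} with hg
  have hgm : Measurable g := measurable_measure_prodMk_left hD'
  have hmed := med ν hρ
  have hgle : ∀ w, g w ≤ ν univ := fun w => measure_mono (subset_univ _)
  set m := ν univ with hm
  have hmt : m ≠ ∞ := measure_ne_top _ _
  have hA : MeasurableSet {w | m / 4 < g w} := measurableSet_lt measurable_const hgm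
  have hint : ∫⁻ w, g w ∂ν ≤ m / 4 * m + m * ν {w | m / 4 < g w} := by
    calc ∫⁻ w, g w ∂ν ≤ ∫⁻ w, (m / 4 + {w | m / 4 < g w}.indicator (fun _ => m) w) ∂ν := by
          refine lintegral_mono fun w => ?_
          by_cases hw : m / 4 < g w
          · rw [indicator_of_mem (show w ∈ {w | m / 4 < g w} from hw)]
            exact (hgle w).trans le_add_self
          · rw [indicator_of_notMem (show w ∉ {w | m / 4 < g w} from hw), add_zero]
            exact not_lt.1 hw
      _ = _ := by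
          rw [lintegral_add_left measurable_const, lintegral_const, lintegral_indicator_const hA]
  have hkey : m / 4 ≤ ν {w | m / 4 < g w} := by
    have hn : ν {w | m / 4 < g w} ≠ ∞ := measure_ne_top _ _
    have h1 := hmed.trans (mul_le_mul_right hint 2)
    exact aux4 hmt hn h1
  calc m ^ (p + 1) = 4 ^ (p + 1) * ((m / 4) ^ p * (m / 4)) := by
        have e : (m / 4) ^ p * (m / 4) = (m / 4) ^ (p + 1) := by
          rw [ENNReal.rpow_add_of_nonneg _ _ hp.le zero_le_one, ENNReal.rpow_one]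
        rw [e, ← ENNReal.mul_rpow_of_nonneg _ _ (by linarith),
          ENNReal.mul_div_cancel (by norm_num) (by norm_num)]
    _ ≤ 4 ^ (p + 1) * ((m / 4) ^ p * ν {w | m / 4 < g w}) := by gcongr
    _ = 4 ^ (p + 1) * ∫⁻ w, {w | m / 4 < g w}.indicator (fun _ => (m / 4) ^ p) w ∂ν := by
        rw [lintegral_indicator_const hA]
    _ ≤ 4 ^ (p + 1) * ∫⁻ w, g w ^ p ∂ν := by
        gcongr with w
        by_cases hw : m / 4 < g w
        · rw [indicator_of_mem (show w ∈ {w | m / 4 < g w} from hw)]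
          exact ENNReal.rpow_le_rpow hw.le hp.le
        · rw [indicator_of_notMem (show w ∉ {w | m / 4 < g w} from hw)]
          exact zero_le

end Pool.Agent.V1282.PL
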